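import Pool.Agent.Helper11U.E8T.Fac
import Pool.Agent.Q10.E8.MainA

set_option autoImplicit false

open scoped Nat

namespace Pool.Agent.Helper11U.E8T

open Pool.Agent.Q10.E8

theorem abs_le_sq (x : ℤ) : |x| ≤ x ^ 2 := by
  rcases eq_or_ne x 0 with h | h
  · rw [h]; norm_num
  · have h1 : 1 ≤ |x| := Int.one_le_abs h
    rw [← sq_abs]
    nlinarith

theorem card_le {m : ℕ} {Y : Finset (Fin 8 → ℤ)} (hY : ∀ v ∈ Y, InShell m v) :
    Y.card ≤ (16 * m + 1) ^ 8 := by
  have h1 : Y ⊆ Fintype.piFinset (fun _ : Fin 8 => Finset.Icc (-(8 * (m : ℤ))) (8 * (m : ℤ))) := by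
    intro v hv
    rw [Fintype.mem_piFinset]
    intro i
    rw [Finset.mem_Icc, ← abs_le]
    refine (abs_le_sq _).trans ?_
    rw [← (hY v hv).2]
    exact Finset.single_le_sum (f := fun i => v i ^ 2) (fun i _ => sq_nonneg _) (Finset.mem_univ i)
  refine (Finset.card_le_card h1).trans (le_of_eq ?_)
  rw [Fintype.card_piFinset]
  simp only [Int.card_Icc, Finset.prod_const, Finset.card_univ, Fintype.card_fin]
  congr 1
  omega

theorem primorial_dvd {t m : ℕ} {Y : Finset (Fin 8 → ℤ)} (hY : ∀ v ∈ Y, InShell m v)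
    (h : IsDesign t m Y) : primorial (t - 1) ∣ 30 * (m * Y.card) := by
  unfold primorial
  apply Finset.prod_primes_dvd
  · intro p hp
    exact (Finset.mem_filter.1 hp).2.prime
  · intro p hp
    obtain ⟨hp1, hp2⟩ := Finset.mem_filter.1 hp
    rw [Finset.mem_range] at hp1
    rcases Nat.lt_or_ge p 7 with h7 | h7
    · apply Dvd.dvd.mul_right
      interval_cases p <;> first | decide | (exfalso; revert hp2; decide)
    · apply Dvd.dvd.mul_left
      have hc : Cubature t m Y (fun v => (((fun _ => 1 : (Fin 8 → ℤ) → ℤ) v : ℤ) : ℝ)) := by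
        simpa using h.2
      have := prime_dvd hY hc p hp2 h7 (by
        have := hp2.pos
        omega)
      simp only [Finset.sum_const, nsmul_eq_mul, mul_one] at this
      exact_mod_cast this

/-- The strength of a spherical design in a shell of `E_8` is at most logarithmic in the norm. -/
theorem strength_le : ∃ C : ℝ, ∀ (t m : ℕ) (Y : Finset (Fin 8 → ℤ)), 0 < m →
    (∀ v ∈ Y, InShell m v) → IsDesign t m Y → (t : ℝ) ≤ C * Real.log (m + 1) := by
  obtain ⟨C₀, hC₀⟩ := Chebyshev.psi_sub_theta_le_mul_sqrt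
  set D : ℝ := (|C₀| + 2) / Real.log 2 with hD
  have hl2 : 0 < Real.log 2 := Real.log_pos (by norm_num)
  have hD0 : 0 ≤ D := by positivity
  set B : ℝ := Real.log 30 + 9 * Real.log 17 with hB
  have hB0 : 0 ≤ B := by
    have h1 : 0 ≤ Real.log 30 := Real.log_nonneg (by norm_num)
    have h2 : 0 ≤ Real.log 17 := Real.log_nonneg (by norm_num)
    positivity
  refine ⟨(2 * (B + Real.log 2) / Real.log 2 + D ^ 2) / Real.log 2 + 18 / Real.log 2, ?_⟩
  intro t m Y hm hY hd
  have hLm : Real.log 2 ≤ Real.log (m + 1) := by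
    apply Real.log_le_log (by norm_num)
    have : (1 : ℝ) ≤ m := by exact_mod_cast hm
    linarith
  set L := Real.log (m + 1) with hL
  have hL0 : 0 < L := hl2.trans_le hLm
  rcases Nat.eq_zero_or_pos t with ht | ht
  · rw [ht]
    simp only [Nat.cast_zero]
    positivity
  obtain ⟨n, rfl⟩ : ∃ n, t = n + 1 := ⟨t - 1, by omega⟩
  have hY0 : 0 < Y.card := Finset.card_pos.2 hd.1
  have hdvd := primorial_dvd hY hd
  rw [Nat.add_sub_cancel] at hdvd
  have hle : primorial n ≤ 30 * (m * Y.card) := Nat.le_of_dvd (by positivity) hdvd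
  have hle2 : primorial n ≤ 30 * (m * (16 * m + 1) ^ 8) :=
    hle.trans (Nat.mul_le_mul_left _ (Nat.mul_le_mul_left _ (card_le hY)))
  have hth : Chebyshev.theta n = Real.log (primorial n) := by
    rw [Chebyshev.theta_eq_log_primorial, Nat.floor_natCast]
  have h1 : Chebyshev.theta n ≤ B + 9 * L := by
    rw [hth]
    have h2 : (primorial n : ℝ) ≤ 30 * (17 * (m + 1)) ^ 9 := by
      have h3 : (primorial n : ℝ) ≤ 30 * (m * (16 * m + 1) ^ 8) := by exact_mod_cast hle2
      have hm' : (1 : ℝ) ≤ m := by exact_mod_cast hm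
      have h4 : (m : ℝ) * (16 * m + 1) ^ 8 ≤ (17 * (m + 1)) * (17 * (m + 1)) ^ 8 := by
        apply mul_le_mul
        · linarith
        · apply pow_le_pow_left₀ (by positivity)
          linarith
        · positivity
        · positivity
      calc (primorial n : ℝ) ≤ 30 * (m * (16 * m + 1) ^ 8) := h3
        _ ≤ 30 * ((17 * (m + 1)) * (17 * (m + 1)) ^ 8) := by linarith
        _ = 30 * (17 * (m + 1)) ^ 9 := by ring
    have hp0 : (0 : ℝ) < primorial n := by exact_mod_cast primorial_pos n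
    refine (Real.log_le_log hp0 h2).trans (le_of_eq ?_)
    have hm1 : (0 : ℝ) < m + 1 := by positivity
    rw [Real.log_mul (by norm_num) (by positivity), Real.log_pow, Real.log_mul (by norm_num) hm1.ne']
    rw [hB, hL]
    push_cast
    ring
  -- lower bound of theta
  have h5 := Chebyshev.psi_ge n
  have h6 := hC₀ n
  have hx : 0 < Real.sqrt (n + 1) := Real.sqrt_pos.2 (by positivity)
  have hx2 : Real.sqrt (n + 1) ^ 2 = n + 1 := Real.sq_sqrt (by positivity)
  have h7 : Real.log (n + 1) ≤ 2 * Real.sqrt (n + 1) := by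
    have h8 : Real.log (Real.sqrt (n + 1)) ≤ Real.sqrt (n + 1) := by
      have := Real.log_le_sub_one_of_pos hx
      linarith
    have h9 : Real.log (n + 1) = 2 * Real.log (Real.sqrt (n + 1)) := by
      rw [Real.log_sqrt (by positivity)]; ring
    linarith
  have h10 : C₀ * Real.sqrt n ≤ |C₀| * Real.sqrt (n + 1) := by
    apply mul_le_mul (le_abs_self _) (Real.sqrt_le_sqrt (by linarith)) (Real.sqrt_nonneg _)
      (abs_nonneg _)
  set x := Real.sqrt (n + 1) with hxd
  have h11 : n * Real.log 2 ≤ B + 9 * L + (|C₀| + 2) * x := by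
    have := h6
    nlinarith
  have h12 : x ^ 2 * Real.log 2 ≤ (B + Real.log 2) + 9 * L + (|C₀| + 2) * x := by
    rw [hx2]; linarith
  have h13 : x ^ 2 ≤ (B + Real.log 2) / Real.log 2 + 9 * L / Real.log 2 + D * x := by
    rw [hD]
    have : (B + Real.log 2) / Real.log 2 + 9 * L / Real.log 2 + (|C₀| + 2) / Real.log 2 * x =
        ((B + Real.log 2) + 9 * L + (|C₀| + 2) * x) / Real.log 2 := by ring
    rw [this, le_div_iff₀ hl2]
    exact h12
  have h14 : x ^ 2 ≤ 2 * ((B + Real.log 2) / Real.log 2) + 2 * (9 * L / Real.log 2) + D ^ 2 := by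
    nlinarith [sq_nonneg (x - D)]
  have h15 : ((n + 1 : ℕ) : ℝ) = x ^ 2 := by rw [hx2]; push_cast; ring
  rw [h15]
  refine h14.trans ?_
  have h16 : 1 ≤ L / Real.log 2 := by rwa [one_le_div hl2]
  have h17 : 0 ≤ 2 * (B + Real.log 2) / Real.log 2 + D ^ 2 := by positivity
  calc 2 * ((B + Real.log 2) / Real.log 2) + 2 * (9 * L / Real.log 2) + D ^ 2
      = (2 * (B + Real.log 2) / Real.log 2 + D ^ 2) * 1 + 18 / Real.log 2 * L := by ring
    _ ≤ (2 * (B + Real.log 2) / Real.log 2 + D ^ 2) * (L / Real.log 2) + 18 / Real.log 2 * L := by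
        have := mul_le_mul_of_nonneg_left h16 h17
        linarith
    _ = _ := by ring

end Pool.Agent.Helper11U.E8T
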