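import Pool.Agent.Helper11U.E8T.Prm

set_option autoImplicit false

open scoped Nat

namespace Pool.Agent.Helper11U.E8T

open Pool.Agent.Q10.E8

/-- every shell of `E_8` is nonempty (norm `2s`, doubled coordinates) -/
theorem exists_shell (s : ℕ) : ∃ r : Fin 8 → ℤ, InShell s r := by
  obtain ⟨a, b, c, d, h⟩ := Nat.sum_four_squares (2 * s)
  refine ⟨![2 * a, 2 * b, 2 * c, 2 * d, 0, 0, 0, 0], ⟨?_, ?_⟩, ?_⟩
  · intro i j
    have : ∀ i : Fin 8, (![2 * (a : ℤ), 2 * b, 2 * c, 2 * d, 0, 0, 0, 0] : Fin 8 → ℤ) i % 2 = 0 := by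
      intro i
      fin_cases i <;> simp
    rw [this i, this j]
  · simp only [Fin.sum_univ_eight]
    show (2 * (a : ℤ) + 2 * b + 2 * c + 2 * d + 0 + 0 + 0 + 0) % 4 = 0
    have h1 : ((a * a + b * b + c * c + d * d : ℕ)) % 2 = 0 := by
      have h2 : a * a + b * b + c * c + d * d = 2 * s := by rw [← h]; ring
      omega
    have hsq : ∀ x : ℕ, (x * x) % 2 = x % 2 := by
      intro x
      rcases Nat.mod_two_eq_zero_or_one x with h | h <;> simp [Nat.mul_mod, h]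
    have h3 : (a + b + c + d) % 2 = 0 := by
      have := hsq a
      have := hsq b
      have := hsq c
      have := hsq d
      omega
    omega
  · simp only [Fin.sum_univ_eight]
    show (2 * (a : ℤ)) ^ 2 + (2 * (b : ℤ)) ^ 2 + (2 * (c : ℤ)) ^ 2 + (2 * (d : ℤ)) ^ 2 + 0 ^ 2 + 0 ^ 2
      + 0 ^ 2 + 0 ^ 2 = 8 * (s : ℤ)
    have h' : (a : ℤ) ^ 2 + b ^ 2 + c ^ 2 + d ^ 2 = 2 * s := by exact_mod_cast h
    linear_combination 4 * h'

theorem sum_even {R : Type*} [AddCommMonoid R] (k : ℕ) (f : ℕ → R) (hf : ∀ j, Odd j → j ≤ 2 * k → f j = 0) :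
    ∑ j ∈ Finset.range (2 * k + 1), f j = ∑ i ∈ Finset.range (k + 1), f (2 * i) := by
  classical
  have h1 : ∑ i ∈ Finset.range (k + 1), f (2 * i) =
      ∑ j ∈ (Finset.range (k + 1)).image (fun i => 2 * i), f j := by
    rw [Finset.sum_image]
    intro a _ b _ hab
    simpa using hab
  rw [h1]
  symm
  apply Finset.sum_subset
  · intro j hj
    obtain ⟨i, hi, rfl⟩ := Finset.mem_image.1 hj
    rw [Finset.mem_range] at hi ⊢
    omega
  · intro j hj hj'
    rw [Finset.mem_range] at hj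
    rcases Nat.even_or_odd j with he | ho
    · exfalso
      apply hj'
      obtain ⟨i, hi⟩ := he
      exact Finset.mem_image.2 ⟨i, Finset.mem_range.2 (by omega), by omega⟩
    · exact hf j ho (by omega)

theorem desc_dvd (n : ℕ) (x : ℤ) : (n ! : ℤ) ∣ (descPochhammer ℤ n).eval x := by
  have h := Ring.descPochhammer_eq_factorial_smul_choose x n
  rw [Polynomial.eval_eq_smeval, h]
  exact ⟨_, by rw [nsmul_eq_mul]⟩

/-- `(k + 3)!` divides `6 m ^ k` times the total weight of an integral cubature formula of degree at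
least `2 k` on the shell of norm `2m`. -/
theorem factorial_dvd {t m : ℕ} {Y : Finset (Fin 8 → ℤ)} {w : (Fin 8 → ℤ) → ℤ}
    (hY : ∀ v ∈ Y, InShell m v) (h : Cubature t m Y (fun v => (w v : ℝ))) (k : ℕ)
    (hk : 2 * k ≤ t) : ((k + 3) ! : ℤ) ∣ 6 * (m : ℤ) ^ k * ∑ v ∈ Y, w v := by
  have hY' : ∀ v ∈ Y, IsE8 v := fun v hv => (hY v hv).1
  choose r hr using exists_shell
  set W := ∑ v ∈ Y, w v with hW
  set P : Polynomial ℤ := descPochhammer ℤ (2 * k) with hP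
  let T : ℕ → ℤ := fun s => ∑ v ∈ Y, w v * P.eval (pr v (r s))
  have hTd : ∀ s, ((2 * k) ! : ℤ) ∣ T s := fun s =>
    Finset.dvd_sum fun v _ => Dvd.dvd.mul_left (desc_dvd _ _) _
  choose U hU using hTd
  let A : ℕ → ℚ := fun i => (P.coeff (2 * i) : ℚ) * (W : ℚ) * (6 * ((2 * i) ! : ℚ)) * (m : ℚ) ^ i /
    ((i ! : ℚ) * ((i + 3) ! : ℚ))
  have hdeg : P.natDegree = 2 * k := descPochhammer_natDegree ℤ (2 * k)
  have hT : ∀ s : ℕ, (T s : ℚ) = ∑ i ∈ Finset.range (k + 1), A i * (s : ℚ) ^ i := by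
    intro s
    have h1 : T s = ∑ j ∈ Finset.range (2 * k + 1), P.coeff j * ∑ v ∈ Y, w v * pr v (r s) ^ j := by
      show ∑ v ∈ Y, w v * P.eval (pr v (r s)) = _
      simp only [Polynomial.eval_eq_sum_range, hdeg, Finset.mul_sum]
      rw [Finset.sum_comm]
      refine Finset.sum_congr rfl fun j _ => Finset.sum_congr rfl fun v _ => ?_
      ring
    rw [h1, sum_even k]
    · push_cast
      refine Finset.sum_congr rfl fun i hi => ?_
      rw [Finset.mem_range] at hi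
      have h2 := moment_even h hY' (r s) (hr s).1 s (hr s).2 i (by omega)
      have h3 : ((i ! : ℚ) * ((i + 3) ! : ℚ)) * ∑ v ∈ Y, (w v : ℚ) * (pr v (r s) : ℚ) ^ (2 * i) =
          6 * ((2 * i) ! : ℚ) * ((m : ℚ) * s) ^ i * (W : ℚ) := by
        exact_mod_cast h2
      have h4 : ((i ! : ℚ) * ((i + 3) ! : ℚ)) ≠ 0 := by positivity
      have h5 : ∑ v ∈ Y, (w v : ℚ) * (pr v (r s) : ℚ) ^ (2 * i) =
          6 * ((2 * i) ! : ℚ) * ((m : ℚ) * s) ^ i * (W : ℚ) / ((i ! : ℚ) * ((i + 3) ! : ℚ)) := by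
        rw [eq_div_iff h4, mul_comm]
        exact h3
      rw [h5]
      show _ = (P.coeff (2 * i) : ℚ) * (W : ℚ) * (6 * ((2 * i) ! : ℚ)) * (m : ℚ) ^ i /
        ((i ! : ℚ) * ((i + 3) ! : ℚ)) * (s : ℚ) ^ i
      rw [mul_pow]
      ring
    · intro j hj hj'
      rw [moment_odd h hY' (r s) (hr s).1 j hj (by omega), mul_zero]
  -- the k-th difference
  have hdiff : ((fwdDiff (1 : ℚ))^[k] (fun x : ℚ => ∑ i ∈ Finset.range (k + 1), A i * x ^ i)) 0 =
      A k * (k ! : ℚ) := by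
    have e1 : (fun x : ℚ => ∑ i ∈ Finset.range (k + 1), A i * x ^ i) =
        (fun x : ℚ => ∑ i ∈ Finset.range k, A i * x ^ i) + (A k • fun x : ℚ => x ^ k) := by
      funext x
      simp only [Pi.add_apply, Pi.smul_apply, smul_eq_mul]
      rw [Finset.sum_range_succ]
    rw [e1, fwdDiff_iter_add, fwdDiff_iter_sum_mul_pow_eq_zero, fwdDiff_iter_const_smul,
      fwdDiff_iter_eq_factorial]
    simp
  rw [fwdDiff_iter_eq_sum_shift] at hdiff
  have hA : A k = (W : ℚ) * (6 * ((2 * k) ! : ℚ)) * (m : ℚ) ^ k / ((k ! : ℚ) * ((k + 3) ! : ℚ)) := by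
    have : P.coeff (2 * k) = 1 := by
      have h1 := monic_descPochhammer ℤ (2 * k)
      rw [Polynomial.Monic, Polynomial.leadingCoeff, ← hP, hdeg] at h1
      exact h1
    show (P.coeff (2 * k) : ℚ) * (W : ℚ) * (6 * ((2 * k) ! : ℚ)) * (m : ℚ) ^ k /
      ((k ! : ℚ) * ((k + 3) ! : ℚ)) = _
    rw [this]
    push_cast
    ring
  set N : ℤ := ∑ j ∈ Finset.range (k + 1), ((-1 : ℤ) ^ (k - j) * (k.choose j : ℤ)) * U j with hN
  have hsum : (((2 * k) ! : ℚ)) * (N : ℚ) = A k * (k ! : ℚ) := by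
    rw [← hdiff, hN]
    push_cast
    rw [Finset.mul_sum]
    refine Finset.sum_congr rfl fun j _ => ?_
    have e1 : (0 : ℚ) + j • (1 : ℚ) = (j : ℚ) := by simp
    rw [e1, ← hT j, hU j, zsmul_eq_mul]
    push_cast
    ring
  refine ⟨N, ?_⟩
  have hfin : (((k + 3) ! : ℚ)) * (N : ℚ) = 6 * (m : ℚ) ^ k * (W : ℚ) := by
    have f0 : ((2 * k) ! : ℚ) ≠ 0 := by positivity
    have f1 : ((k + 3) ! : ℚ) ≠ 0 := by positivity
    have f2 : (k ! : ℚ) ≠ 0 := by positivity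
    apply mul_left_cancel₀ f0
    calc ((2 * k) ! : ℚ) * (((k + 3) ! : ℚ) * (N : ℚ))
        = ((k + 3) ! : ℚ) * (((2 * k) ! : ℚ) * (N : ℚ)) := by ring
      _ = ((k + 3) ! : ℚ) * (A k * (k ! : ℚ)) := by rw [hsum]
      _ = ((2 * k) ! : ℚ) * (6 * (m : ℚ) ^ k * (W : ℚ)) := by
          rw [hA]; field_simp
  have : (((6 * (m : ℤ) ^ k * W : ℤ)) : ℚ) = ((((k + 3) ! : ℤ) * N : ℤ) : ℚ) := by
    push_cast
    exact hfin.symm
  exact_mod_cast this

end Pool.Agent.Helper11U.E8T
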