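import Pool.Agent.Q10.E8.Cub

set_option autoImplicit false

open MeasureTheory Metric Set
open scoped RealInnerProductSpace Nat

namespace Pool.Agent.Helper11U.E8T

open Pool.Agent.Q10.E8

theorem M_two (k : ℕ) (i : Fin 8) (hi : i ≠ 0) :
    F (2 * (k + 1)) (e 0) = (2 * k + 1) * M i (2 * k) 2 := by
  have hkey := key (k + 1) i hi
  set A := F (2 * (k + 1)) (e 0) with hA
  -- the two sides as polynomials
  let P : Polynomial ℝ := ∑ j ∈ Finset.range (k + 2), Polynomial.C (((k + 1).choose j : ℝ) * A) *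
    Polynomial.X ^ (2 * j)
  let Q : Polynomial ℝ := ∑ j ∈ Finset.range (2 * (k + 1) + 1),
    Polynomial.C (((2 * (k + 1)).choose j : ℝ) * M i (2 * (k + 1) - j) j) * Polynomial.X ^ j
  have hPQ : P = Q := by
    apply Polynomial.funext
    intro t
    have h1 : P.eval t = (1 + t ^ 2) ^ (k + 1) * A := by
      simp only [P, Polynomial.eval_finsetSum, Polynomial.eval_mul, Polynomial.eval_C,
        Polynomial.eval_pow, Polynomial.eval_X]
      rw [add_comm (1 : ℝ), add_pow, Finset.sum_mul]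
      refine Finset.sum_congr rfl fun j _ => ?_
      rw [one_pow, ← pow_mul]
      ring
    have h2 : Q.eval t = (1 + t ^ 2) ^ (k + 1) * A := by
      rw [hkey t]
      simp only [Q, Polynomial.eval_finsetSum, Polynomial.eval_mul, Polynomial.eval_C,
        Polynomial.eval_pow, Polynomial.eval_X]
      rw [← Finset.sum_range_reflect]
      refine Finset.sum_congr rfl fun j hj => ?_
      rw [Finset.mem_range] at hj
      have e1 : 2 * (k + 1) + 1 - 1 - j = 2 * (k + 1) - j := by omega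
      rw [e1, Nat.choose_symm (by omega : j ≤ 2 * (k + 1))]
      have e2 : 2 * (k + 1) - (2 * (k + 1) - j) = j := by omega
      rw [e2]
      ring
    rw [h1, h2]
  have hc := congrArg (fun R => Polynomial.coeff R 2) hPQ
  simp only [P, Q, Polynomial.finsetSum_coeff, Polynomial.coeff_C_mul, Polynomial.coeff_X_pow] at hc
  rw [Finset.sum_eq_single 1, Finset.sum_eq_single 2] at hc
  · have e1 : 2 * (k + 1) - 2 = 2 * k := by omega
    rw [e1] at hc
    have e2 : ((2 * (k + 1)).choose 2 : ℝ) = (k + 1) * (2 * k + 1) := by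
      rw [Nat.choose_two_right]
      have : 2 * (k + 1) * (2 * (k + 1) - 1) / 2 = (k + 1) * (2 * k + 1) := by
        have h3 : 2 * (k + 1) * (2 * (k + 1) - 1) = 2 * ((k + 1) * (2 * k + 1)) := by
          have h4 : 2 * (k + 1) - 1 = 2 * k + 1 := by omega
          rw [h4]; ring
        rw [h3, Nat.mul_div_cancel_left _ (by norm_num)]
      rw [this]
      push_cast
      ring
    rw [e2] at hc
    simp only [Nat.choose_one_right, mul_one, if_true] at hc
    have hk : ((k : ℝ) + 1) ≠ 0 := by positivity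
    push_cast at hc
    have : (k + 1 : ℝ) * (A - (2 * k + 1) * M i (2 * k) 2) = 0 := by linear_combination hc
    rcases mul_eq_zero.1 this with h | h
    · exact absurd h hk
    · linarith
  · intro j _ hj
    rw [if_neg (by omega), mul_zero]
  · intro h
    exact absurd (Finset.mem_range.2 (by omega)) h
  · intro j _ hj
    rw [if_neg (by omega), mul_zero]
  · intro h
    exact absurd (Finset.mem_range.2 (by omega)) h

theorem F_rec (k : ℕ) : (2 * k + 1) * F (2 * k) (e 0) = (2 * k + 8) * F (2 * (k + 1)) (e 0) := by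
  have h := rec_M (2 * k)
  rw [Fin.sum_univ_eight, M_zero] at h
  have e1 : 2 * k + 2 = 2 * (k + 1) := by ring
  rw [e1] at h
  have h1 := M_two k 1 (by decide)
  have h2 := M_two k 2 (by decide)
  have h3 := M_two k 3 (by decide)
  have h4 := M_two k 4 (by decide)
  have h5 := M_two k 5 (by decide)
  have h6 := M_two k 6 (by decide)
  have h7 := M_two k 7 (by decide)
  rw [h]
  linear_combination (-1 : ℝ) * (h1 + h2 + h3 + h4 + h5 + h6 + h7)

/-- The even zonal moments of the sphere in dimension 8. -/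
theorem F_closed (k : ℕ) :
    4 ^ k * (k ! : ℝ) * ((k + 3) ! : ℝ) * F (2 * k) (e 0) = 6 * ((2 * k) ! : ℝ) * sg.real Set.univ := by
  induction k with
  | zero =>
    have : F (2 * 0) (e 0) = sg.real Set.univ := F0
    rw [this]
    norm_num [Nat.factorial]
  | succ k ih =>
    have h := F_rec k
    have f1 : ((k + 1) ! : ℝ) = (k + 1) * (k ! : ℝ) := by
      rw [Nat.factorial_succ]; push_cast; ring
    have f2 : ((k + 1 + 3) ! : ℝ) = (k + 4) * ((k + 3) ! : ℝ) := by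
      have : k + 1 + 3 = (k + 3) + 1 := by ring
      rw [this, Nat.factorial_succ]; push_cast; ring
    have f3 : ((2 * (k + 1)) ! : ℝ) = (2 * k + 2) * ((2 * k + 1) * ((2 * k) ! : ℝ)) := by
      have : 2 * (k + 1) = (2 * k + 1) + 1 := by ring
      rw [this, Nat.factorial_succ, Nat.factorial_succ]; push_cast; ring
    rw [f1, f2, f3]
    have h' : (k + 4) * F (2 * (k + 1)) (e 0) = (2 * k + 1) * F (2 * k) (e 0) / 2 := by
      linear_combination (-1 / 2 : ℝ) * h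
    calc 4 ^ (k + 1) * ((k + 1) * (k ! : ℝ)) * ((k + 4) * ((k + 3) ! : ℝ)) * F (2 * (k + 1)) (e 0)
        = 4 * 4 ^ k * (k + 1) * (k ! : ℝ) * ((k + 3) ! : ℝ) * ((k + 4) * F (2 * (k + 1)) (e 0)) := by
          ring
      _ = 2 * (k + 1) * (2 * k + 1) * (4 ^ k * (k ! : ℝ) * ((k + 3) ! : ℝ) * F (2 * k) (e 0)) := by
          rw [h']; ring
      _ = 6 * ((2 * k + 2) * ((2 * k + 1) * ((2 * k) ! : ℝ))) * sg.real Set.univ := by
          rw [ih]; ring

theorem norm_sq_half (r : Fin 8 → ℤ) (s : ℕ) (hs : ∑ i, r i ^ 2 = 8 * (s : ℤ)) :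
    ‖(WithLp.toLp 2 fun i => (r i : ℝ) / 2 : E)‖ ^ 2 = 2 * s := by
  rw [EuclideanSpace.norm_sq_eq]
  have : ∀ i, ‖(WithLp.toLp 2 fun i => (r i : ℝ) / 2 : E) i‖ ^ 2 = (r i : ℝ) ^ 2 / 4 := by
    intro i
    show ‖(r i : ℝ) / 2‖ ^ 2 = _
    rw [Real.norm_eq_abs, sq_abs]; ring
  rw [Finset.sum_congr rfl fun i _ => this i, ← Finset.sum_div]
  have h2 : ∑ i, (r i : ℝ) ^ 2 = 8 * s := by exact_mod_cast hs
  rw [h2]; ring

/-- The even moments of an integral cubature formula on a shell. -/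
theorem moment_even {t m : ℕ} {Y : Finset (Fin 8 → ℤ)} {w : (Fin 8 → ℤ) → ℤ}
    (h : Cubature t m Y (fun v => (w v : ℝ))) (hY : ∀ v ∈ Y, IsE8 v) (r : Fin 8 → ℤ) (hr : IsE8 r)
    (s : ℕ) (hs : ∑ i, r i ^ 2 = 8 * (s : ℤ)) (k : ℕ) (hk : 2 * k ≤ t) :
    ((k ! * (k + 3) ! : ℕ) : ℤ) * ∑ v ∈ Y, w v * pr v r ^ (2 * k) =
      6 * ((2 * k) ! : ℤ) * ((m : ℤ) * s) ^ k * ∑ v ∈ Y, w v := by
  have h1 := moment h (WithLp.toLp 2 fun i => (r i : ℝ) / 2) (2 * k) hk
  have h2 : ∑ v ∈ Y, (w v : ℝ) * (∑ i, (WithLp.toLp 2 fun i => (r i : ℝ) / 2 : E) i *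
      ((v i : ℝ) / 2)) ^ (2 * k) = ∑ v ∈ Y, (w v : ℝ) * (pr v r : ℝ) ^ (2 * k) :=
    Finset.sum_congr rfl fun v hv => by rw [aux_z hY r hr v hv]
  rw [h2, F_eq, pow_mul (Real.sqrt (2 * (m : ℝ))), Real.sq_sqrt (by positivity), pow_mul ‖_‖,
    norm_sq_half r s hs] at h1
  have h3 := F_closed k
  have hV := vol_pos
  generalize sg.real Set.univ = V at h1 h3 hV
  generalize F (2 * k) (e 0) = G at h1 h3
  have h4 : ((k ! : ℝ) * ((k + 3) ! : ℝ)) * ∑ v ∈ Y, (w v : ℝ) * (pr v r : ℝ) ^ (2 * k) =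
      6 * ((2 * k) ! : ℝ) * ((m : ℝ) * s) ^ k * ∑ v ∈ Y, (w v : ℝ) := by
    apply mul_right_cancel₀ hV.ne'
    have e1 : (2 * (m : ℝ)) ^ k * ((2 * (s : ℝ)) ^ k * G) = ((m : ℝ) * s) ^ k * (4 ^ k * G) := by
      have : (4 : ℝ) ^ k = 2 ^ k * 2 ^ k := by rw [← mul_pow]; norm_num
      rw [mul_pow, mul_pow, mul_pow, this]; ring
    rw [e1] at h1
    calc ((k ! : ℝ) * ((k + 3) ! : ℝ)) * (∑ v ∈ Y, (w v : ℝ) * (pr v r : ℝ) ^ (2 * k)) * V
        = ((k ! : ℝ) * ((k + 3) ! : ℝ)) * ((∑ v ∈ Y, (w v : ℝ) * (pr v r : ℝ) ^ (2 * k)) * V) := by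
          ring
      _ = (∑ v ∈ Y, (w v : ℝ)) * ((m : ℝ) * s) ^ k *
          (4 ^ k * (k ! : ℝ) * ((k + 3) ! : ℝ) * G) := by rw [h1]; ring
      _ = _ := by rw [h3]; ring
  have h5 : (((((k ! * (k + 3) ! : ℕ) : ℤ) * ∑ v ∈ Y, w v * pr v r ^ (2 * k) : ℤ)) : ℝ) =
      ((6 * ((2 * k) ! : ℤ) * ((m : ℤ) * s) ^ k * ∑ v ∈ Y, w v : ℤ) : ℝ) := by
    push_cast
    exact h4
  exact_mod_cast h5

theorem moment_odd {t m : ℕ} {Y : Finset (Fin 8 → ℤ)} {w : (Fin 8 → ℤ) → ℤ}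
    (h : Cubature t m Y (fun v => (w v : ℝ))) (hY : ∀ v ∈ Y, IsE8 v) (r : Fin 8 → ℤ) (hr : IsE8 r)
    (k : ℕ) (hk : Odd k) (hkt : k ≤ t) : ∑ v ∈ Y, w v * pr v r ^ k = 0 := by
  have h1 := moments_odd h hY r hr k hk hkt
  exact_mod_cast h1

end Pool.Agent.Helper11U.E8T
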