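import Pool.Agent.Helper11U.E8T.Mom

set_option autoImplicit false

open scoped Nat

namespace Pool.Agent.Helper11U.E8T

open Pool.Agent.Q10.E8

/-- a root of `E_8` in doubled coordinates -/
def root0 : Fin 8 → ℤ := ![2, 2, 0, 0, 0, 0, 0, 0]

theorem root0_isE8 : IsE8 root0 := by
  unfold IsE8 root0
  refine ⟨?_, ?_⟩
  · intro i j
    fin_cases i <;> fin_cases j <;> rfl
  · decide

theorem root0_norm : ∑ i, root0 i ^ 2 = 8 * ((1 : ℕ) : ℤ) := by
  simp [root0, Fin.sum_univ_eight]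

/-- Fermat: `a ^ (p + 1) = a ^ 2` modulo `p`. -/
theorem fermat_succ (p : ℕ) [Fact p.Prime] (a : ℤ) : (a : ZMod p) ^ (p + 1) = (a : ZMod p) ^ 2 := by
  rw [pow_succ, ZMod.pow_card, sq]

theorem sum_mod (p : ℕ) [Fact p.Prime] (Y : Finset (Fin 8 → ℤ)) (w f : (Fin 8 → ℤ) → ℤ) :
    ((∑ v ∈ Y, w v * f v ^ (p + 1) : ℤ) : ZMod p) = ((∑ v ∈ Y, w v * f v ^ 2 : ℤ) : ZMod p) := by
  push_cast
  exact Finset.sum_congr rfl fun v _ => by rw [fermat_succ]

theorem dec7 : ∀ a b : ZMod 7, 2 * (2 * a ^ 4 * b) = a * b → a * b = 0 := by decide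

/-- Every prime `7 ≤ p < t` divides `m` times the total weight of an integral cubature formula of
degree `t` on the shell of norm `2m`. -/
theorem prime_dvd {t m : ℕ} {Y : Finset (Fin 8 → ℤ)} {w : (Fin 8 → ℤ) → ℤ}
    (hY : ∀ v ∈ Y, InShell m v) (h : Cubature t m Y (fun v => (w v : ℝ))) (p : ℕ) (hp : p.Prime)
    (h7 : 7 ≤ p) (hpt : p < t) : (p : ℤ) ∣ m * ∑ v ∈ Y, w v := by
  have : Fact p.Prime := ⟨hp⟩
  have hY' : ∀ v ∈ Y, IsE8 v := fun v hv => (hY v hv).1
  obtain ⟨K, hK⟩ : ∃ K, p + 1 = 2 * K := by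
    rcases hp.eq_two_or_odd' with h2 | h2
    · omega
    · obtain ⟨j, hj⟩ := h2
      exact ⟨j + 1, by omega⟩
  have e2 := moment_even h hY' root0 root0_isE8 1 root0_norm 1 (by omega)
  have eK := moment_even h hY' root0 root0_isE8 1 root0_norm K (by omega)
  rw [← hK] at eK
  have hmod := sum_mod p Y w (fun v => pr v root0)
  set W := ∑ v ∈ Y, w v with hW
  set S2 := ∑ v ∈ Y, w v * pr v root0 ^ 2 with hS2
  set SK := ∑ v ∈ Y, w v * pr v root0 ^ (p + 1) with hSK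
  have h2' : 2 * S2 = m * W := by
    norm_num [Nat.factorial] at e2
    linarith
  have hpm : ∀ n : ℕ, n < p → ¬ p ∣ n ! := fun n hn hd => by
    have := (hp.dvd_factorial).1 hd
    omega
  rcases Nat.lt_or_ge 7 p with h8 | h8
  · -- p ≥ 11 (indeed p > 7)
    have hd1 : (p : ℤ) ∣ ((K ! * (K + 3) ! : ℕ) : ℤ) * SK := by
      rw [eK]
      have : (p : ℤ) ∣ ((p + 1) ! : ℤ) := by
        exact_mod_cast Nat.dvd_factorial hp.pos (by omega)
      exact Dvd.dvd.mul_right (Dvd.dvd.mul_right (Dvd.dvd.mul_left this _) _) _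
    have hpr : Prime (p : ℤ) := Nat.prime_iff_prime_int.1 hp
    have hSKd : (p : ℤ) ∣ SK := by
      rcases hpr.dvd_or_dvd hd1 with h1 | h1
      · exfalso
        have h1' : p ∣ K ! * (K + 3) ! := by exact_mod_cast h1
        rcases (hp.dvd_mul).1 h1' with h3 | h3
        · exact hpm K (by omega) h3
        · exact hpm (K + 3) (by omega) h3
      · exact h1
    have hS2d : (p : ℤ) ∣ S2 := by
      rw [← ZMod.intCast_zmod_eq_zero_iff_dvd] at hSKd ⊢
      rw [← hmod]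
      exact hSKd
    rw [← h2']
    exact Dvd.dvd.mul_left hS2d _
  · have hp7 : p = 7 := by omega
    subst hp7
    have hK4 : K = 4 := by omega
    subst hK4
    have hS8 : SK = 2 * (m : ℤ) ^ 4 * W := by
      norm_num [Nat.factorial] at eK
      linarith
    have hz : ((2 * (m : ℤ) ^ 4 * W : ℤ) : ZMod 7) = ((S2 : ℤ) : ZMod 7) := by
      rw [← hS8]; exact hmod
    have hz2 : ((2 * S2 : ℤ) : ZMod 7) = ((m * W : ℤ) : ZMod 7) := by rw [h2']
    have : (((m * W : ℤ)) : ZMod 7) = 0 := by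
      push_cast at hz hz2 ⊢
      rw [← hz] at hz2
      exact dec7 _ _ hz2
    exact (ZMod.intCast_zmod_eq_zero_iff_dvd _ 7).1 this

end Pool.Agent.Helper11U.E8T
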